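import Mathlib

set_option autoImplicit false

namespace Pool.Agent.Results.MP_ea4c65_al.Shadow

open SimpleGraph

section
variable {G : Type} [AddGroup G] (S : Finset G)

/-- Word length. -/
noncomputable def len (x : G) : ℕ := (addCayley (S : Set G)).dist 0 x

/-- There is a strictly increasing path to infinity from `x`. -/
def Ext (x : G) : Prop :=
  ∃ π : ℕ → G, π 0 = x ∧
    ∀ i, (addCayley (S : Set G)).Adj (π i) (π (i + 1)) ∧ len S (π i) < len S (π (i + 1))

/-- The set whose least element is the depth of the shadow of `x`. -/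
def depths (x : G) : Set ℕ :=
  {k | ∃ y, len S y + k = len S x ∧ Ext S y ∧
    ∃ p : (addCayley (S : Set G)).Walk 0 x, p.length = len S x ∧ y ∈ p.support}

end

variable (r : ℕ)

abbrev m : ℕ := 2 * r * (r + 1) + r + 2

abbrev G : Type := ℤ × ZMod (m r)

def S : Finset (G r) := {(1, 0), (1, 1), (0, (r : ZMod (m r)) + 1)}

abbrev Γ : SimpleGraph (G r) := addCayley (S r : Set (G r))

variable {r}

theorem inv {u w : G r} (p : (Γ r).Walk u w) : ∃ (a b : ℤ) (h v : ℕ), h + v = p.length ∧
    a.natAbs ≤ h ∧ b.natAbs ≤ v ∧ (w.1 - u.1).natAbs ≤ v ∧ w.2 - u.2 = (a * (r + 1) + b : ℤ) := by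
  induction p with
  | nil => exact ⟨0, 0, 0, 0, by simp⟩
  | @cons u u' w h p ih =>
    obtain ⟨a, b, k, v, h1, h2, h3, h4, h5⟩ := ih
    obtain ⟨-, g, hg, e⟩ := (addCayley_adj' _ _ _).1 h
    simp only [S, Finset.coe_insert, Finset.coe_singleton, Set.mem_insert_iff,
      Set.mem_singleton_iff] at hg
    rw [Walk.length_cons]
    push_cast at h5
    rcases e with rfl | rfl <;> rcases hg with rfl | rfl | rfl <;>
      simp only [Prod.fst_add, Prod.snd_add] at h4 h5 ⊢
    · exact ⟨a, b, k, v + 1, by omega, by omega, by omega, by omega,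
        by push_cast; linear_combination h5⟩
    · exact ⟨a, b + 1, k, v + 1, by omega, by omega, by omega, by omega,
        by push_cast; linear_combination h5⟩
    · exact ⟨a + 1, b, k + 1, v, by omega, by omega, by omega, by omega,
        by push_cast at h5 ⊢; linear_combination h5⟩
    · exact ⟨a, b, k, v + 1, by omega, by omega, by omega, by omega,
        by push_cast; linear_combination h5⟩
    · exact ⟨a, b - 1, k, v + 1, by omega, by omega, by omega, by omega,
        by push_cast; linear_combination h5⟩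
    · exact ⟨a - 1, b, k + 1, v, by omega, by omega, by omega, by omega,
        by push_cast; linear_combination h5⟩

def R (L : ℕ) (g : G r) : Prop := ∃ p : (Γ r).Walk 0 g, p.length ≤ L

theorem R.step {L : ℕ} {g : G r} (h : R L g) {s : G r} (hs : s ∈ S r ∨ -s ∈ S r) (j : ℕ) :
    R (L + j) (g + j • s) := by
  induction j with
  | zero => simpa using h
  | succ j ih =>
    obtain ⟨p, hp⟩ := ih
    rw [succ_nsmul, ← add_assoc g]
    by_cases h0 : s = 0
    · exact ⟨p.copy rfl (by simp [h0]), by rw [Walk.length_copy]; omega⟩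
    · exact ⟨p.concat ((addCayley_adj' _ _ _).2 ⟨by simpa using h0, hs.elim
        (fun h => ⟨s, h, Or.inl rfl⟩) fun h => ⟨-s, h, Or.inr (by simp)⟩⟩),
        by rw [Walk.length_concat]; omega⟩

theorem R0 : R 0 (0 : G r) := ⟨.nil, le_rfl⟩

theorem bound (g : G r) : R (max g.1.natAbs (3 * m r)) g := by
  obtain ⟨n, h⟩ := g
  have mono : ∀ {L L' : ℕ} {g g' : G r}, R L g → L ≤ L' → g = g' → R L' g' :=
    fun ⟨p, hp⟩ h e => e ▸ ⟨p, hp.trans h⟩
  have h1 := (R0 (r := r)).step (s := (1, 1)) (by simp [S]) h.val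
  have h2 := (R0 (r := r)).step (s := (-1, -1)) (by simp [S]) (-h).val
  have v1 := ZMod.val_lt h
  have v2 := ZMod.val_lt (-h)
  rcases le_total (h.val : ℤ) n with c | c
  · refine mono (h1.step (s := (1, 0)) (by simp [S]) (n - h.val).toNat) (by simp only; omega) ?_
    ext
    · simp only [Prod.fst_add, Prod.smul_mk, nsmul_eq_mul, Prod.fst_zero]; omega
    · simp
  · rcases le_total n (-(-h).val : ℤ) with c' | c'
    · refine mono (h2.step (s := (-1, 0)) (by simp [S]) (-n - (-h).val).toNat)
        (by simp only; omega) ?_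
      ext
      · simp only [Prod.fst_add, Prod.smul_mk, nsmul_eq_mul, Prod.fst_zero]; omega
      · simp
    · refine mono (h1.step (s := (-1, 0)) (by simp [S]) (h.val - n).toNat) (by simp only; omega) ?_
      ext
      · simp only [Prod.fst_add, Prod.smul_mk, nsmul_eq_mul, Prod.fst_zero]; omega
      · simp

theorem len_le {L : ℕ} {g : G r} (h : R L g) : len (S r) g ≤ L :=
  h.elim fun p hp => (dist_le p).trans hp

theorem geo (g : G r) : ∃ p : (Γ r).Walk 0 g, p.length = len (S r) g :=
  (bound g).elim fun p _ => p.reachable.exists_walk_length_eq_dist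

theorem notExt {y : G r} (h0 : y.1 = 0) (h : Ext (S r) y) : len (S r) y = 0 := by
  obtain ⟨π, rfl, h⟩ := h
  have key : ∀ i, len (S r) (π 0) + i ≤ len (S r) (π i) ∧ (π i).1.natAbs ≤ i := by
    intro i
    induction i with
    | zero => simp [h0]
    | succ i ih =>
      obtain ⟨a, b, k, v, h1, -, -, h4, -⟩ := inv (h i).1.toWalk
      have := (h i).2
      simp only [Adj.toWalk, Walk.length_cons, Walk.length_nil] at h1
      omega
  have := len_le (bound (π (3 * m r + 1)))
  have := key (3 * m r + 1)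
  omega

theorem rigid {a b : ℤ} {h v : ℕ} (h1 : h + v ≤ r) (h2 : a.natAbs ≤ h) (h3 : b.natAbs ≤ v)
    (h5 : ((r * (r + 1) : ℤ) : ZMod (m r)) = (a * (r + 1) + b : ℤ)) : h = r := by
  replace h2 : -(h : ℤ) ≤ a ∧ a ≤ h := by omega
  replace h3 : -(v : ℤ) ≤ b ∧ b ≤ v := by omega
  obtain ⟨h2, h2'⟩ := h2
  obtain ⟨h3, h3'⟩ := h3
  have h1' : (h : ℤ) + v ≤ r := by omega
  have := Int.eq_zero_of_abs_lt_dvd ((ZMod.intCast_eq_intCast_iff_dvd_sub _ _ _).1 h5) (by
    rw [abs_lt]
    push_cast
    constructor <;> nlinarith)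
  by_contra hne
  have : a + 1 ≤ r := by omega
  nlinarith

theorem result (r : ℕ) : ∃ (H : Type) (_ : AddGroup H) (T : Finset H) (x : H), Infinite H ∧
    AddSubgroup.closure (T : Set H) = ⊤ ∧ len T x = r ∧ IsLeast (depths T x) r := by
  have hx : len (S r) (0, ((r * (r + 1) : ℤ) : ZMod (m r))) = r := by
    refine le_antisymm (len_le ?_) ?_
    · simpa [mul_add] using (R0 (r := r)).step (s := (0, (r : ZMod (m r)) + 1)) (by simp [S]) r
    · by_contra hc
      obtain ⟨p, hp⟩ := geo (r := r) (0, ((r * (r + 1) : ℤ) : ZMod (m r)))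
      obtain ⟨a, b, k, v, h1, h2, h3, -, h5⟩ := inv p
      have := rigid (r := r) (by omega) h2 h3 (by simpa using h5)
      omega
  have l0 : len (S r) 0 = 0 := dist_self
  refine ⟨G r, inferInstance, S r, (0, ((r * (r + 1) : ℤ) : ZMod (m r))), inferInstance, ?_, hx,
    ⟨0, by omega, ⟨fun i => (i, 0), rfl, fun i => ⟨(addCayley_adj' _ _ _).2
      ⟨by simp, (1, 0), by simp [S], Or.inl (by simp)⟩, ?_⟩⟩, ?_⟩, ?_⟩
  · refine eq_top_iff.2 fun g _ => ?_
    have a : ((1, 0) : G r) ∈ AddSubgroup.closure (S r : Set (G r)) :=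
      AddSubgroup.subset_closure (by simp [S])
    have b : ((1, 1) : G r) ∈ AddSubgroup.closure (S r : Set (G r)) :=
      AddSubgroup.subset_closure (by simp [S])
    convert add_mem (zsmul_mem a (g.1 - g.2.val)) (nsmul_mem b g.2.val) using 1
    ext <;> simp
  · have := len_le ((R0 (r := r)).step (s := (1, 0)) (by simp [S]) i)
    obtain ⟨p, hp⟩ := geo (r := r) ((i + 1 : ℕ), 0)
    obtain ⟨a, b, k, v, h1, -, -, h4, -⟩ := inv p
    simp only [zero_add, Prod.smul_mk, nsmul_eq_mul, mul_one, mul_zero, Prod.fst_zero,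
      sub_zero] at this h4 ⊢
    omega
  · obtain ⟨p, hp⟩ := geo (r := r) (0, ((r * (r + 1) : ℤ) : ZMod (m r)))
    exact ⟨p, hp, p.start_mem_support⟩
  · rintro k ⟨y, h1, h2, p, hp, hy⟩
    classical
    obtain ⟨a, b, k, v, e1, e2, e3, e4, e5⟩ := inv (p.takeUntil y hy)
    obtain ⟨a', b', k', v', f1, f2, f3, -, f5⟩ := inv (p.dropUntil y hy)
    have hl := congrArg Walk.length (p.take_spec hy)
    rw [Walk.length_append] at hl
    have := rigid (r := r) (a := a + a') (b := b + b') (h := k + k') (v := v + v') (by omega)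
      (by omega) (by omega)
      (by simp only [Prod.snd_zero] at e5 f5; push_cast at e5 f5 ⊢; linear_combination e5 + f5)
    have := notExt (y := y) (by simp only [Prod.fst_zero] at e4; omega) h2
    omega

end Pool.Agent.Results.MP_ea4c65_al.Shadow
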